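import Pool.Agent.W912.ND.Defs
import Pool.Agent.H620R2.Gauge.Comb

/-!
# Few rounds of parallel questions do not follow a random chain
-/

set_option autoImplicit false

namespace Pool.Agent.W346.ND

open Pool.Agent.H620R2.Gauge H568R2 Pool.Agent.H676 Pool.Agent.W912.ND
open Finset

section A

variable {I : Type} [Fintype I] [DecidableEq I]

/-- averaging over the bits in `Q` first -/
theorem exow (Q : Finset I) (F : (I → Bool) → ℝ) :
    Ex unif F = Ex unif (fun π => Ex unif (fun a => F (ow Q π a))) := by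
  induction Q using Finset.induction_on generalizing F with
  | empty =>
    have h : ∀ π : I → Bool, Ex unif (fun a => F (ow ∅ π a)) = Ex unif F := by
      intro π
      congr 1
    simp only [h]
    rw [Ex_const unif_sum]
  | insert i Q hi ih =>
    rw [ih F]
    rw [Ex_resample unif_sum (fun π => Ex unif (fun a => F (ow (insert i Q) π a))) i]
    congr 1
    funext π
    have h1 : ∀ b : Bool, ∀ a : I → Bool, ow (insert i Q) (Function.update π i b) a =
        ow Q π (Function.update a i b) := by
      intro b a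
      funext l
      unfold ow
      by_cases hl : l = i
      · subst hl
        simp [hi]
      · by_cases hQ : l ∈ Q
        · simp [hl, hQ]
        · simp [hl, hQ]
    simp only [h1]
    rw [Ex_resample unif_sum (fun a => F (ow Q π a)) i]
    rw [Ex_sum univ unif (fun b ω => unif b * F (ow Q π (Function.update ω i b)))]
    refine Finset.sum_congr rfl fun b _ => ?_
    rw [Ex_smul]

/-- product functions -/
theorem Ex_fprod (f : I → Bool → ℝ) :
    Ex unif (fun ω : I → Bool => ∏ i, f i (ω i)) = ∏ i, ∑ a, unif a * f i a := by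
  unfold Ex
  rw [Finset.prod_univ_sum, Fintype.piFinset_univ]
  refine Finset.sum_congr rfl fun ω _ => ?_
  rw [← Finset.prod_mul_distrib]

theorem ow_ow (A Q : Finset I) (π π' a : I → Bool) :
    ow A π (ow Q π' a) = ow Q (ow A π π') (ow A π a) := by
  funext l
  unfold ow
  by_cases h1 : l ∈ A
  · by_cases h2 : l ∈ Q <;> simp [h1, h2]
  · by_cases h2 : l ∈ Q <;> simp [h1, h2]

theorem rq_ow {q : ℕ} : ∀ {r : ℕ} {g : (I → Bool) → Bool}, RQ q r g → ∀ (A : Finset I)
    (π : I → Bool), RQ q r (fun a => g (ow A π a)) := by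
  intro r
  induction r with
  | zero =>
    rintro g ⟨c, hc⟩ A π
    exact ⟨c, fun a => hc _⟩
  | succ r ih =>
    rintro g ⟨Q, hQ, h⟩ A π
    refine ⟨Q, hQ, fun π' => ?_⟩
    have h2 := ih (h (ow A π π')) A π
    simp only [ow_ow A Q π π']
    exact h2

variable {m : ℕ}

/-- the touched nodes -/
def tch (pos : (Fin m → Bool) → Fin m → I) (P : Finset I) : Finset (Fin m → Bool) :=
  univ.filter (fun x => ∃ j, pos x j ∈ P)

theorem mem_tch {pos : (Fin m → Bool) → Fin m → I} {P : Finset I} {x : Fin m → Bool} :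
    x ∈ tch pos P ↔ ∃ j, pos x j ∈ P := by
  unfold tch
  simp

theorem tch_card {pos : (Fin m → Bool) → Fin m → I}
    (hpos : ∀ x j x' j', pos x j = pos x' j' → x = x' ∧ j = j') (Q : Finset I) :
    (tch pos Q).card ≤ Q.card := by
  have h1 : tch pos Q ⊆ Q.biUnion (fun i => univ.filter (fun x => ∃ j, pos x j = i)) := by
    intro x hx
    obtain ⟨j, hj⟩ := mem_tch.1 hx
    rw [Finset.mem_biUnion]
    exact ⟨pos x j, hj, Finset.mem_filter.2 ⟨mem_univ _, j, rfl⟩⟩
  have h2 := Finset.card_biUnion_le_card_mul Q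
    (fun i => univ.filter (fun x : Fin m → Bool => ∃ j, pos x j = i)) 1 (by
      intro i _
      rw [Finset.card_le_one]
      intro x hx x' hx'
      obtain ⟨j, hj⟩ := (Finset.mem_filter.1 hx).2
      obtain ⟨j', hj'⟩ := (Finset.mem_filter.1 hx').2
      exact (hpos x j x' j' (hj.trans hj'.symm)).1)
  have h3 := Finset.card_le_card h1
  omega

theorem tch_step {pos : (Fin m → Bool) → Fin m → I}
    (hpos : ∀ x j x' j', pos x j = pos x' j' → x = x' ∧ j = j') (P Q : Finset I)
    (y : Fin m → Bool) :
    (tch pos (P ∪ (Q ∪ univ.image (pos y)))).card ≤ (tch pos P).card + Q.card + 1 := by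
  have h1 : tch pos (P ∪ (Q ∪ univ.image (pos y))) ⊆ (tch pos P ∪ tch pos Q) ∪ {y} := by
    intro x hx
    obtain ⟨j, hj⟩ := mem_tch.1 hx
    rw [Finset.mem_union, Finset.mem_union, Finset.mem_image] at hj
    rw [Finset.mem_union, Finset.mem_union, Finset.mem_singleton, mem_tch, mem_tch]
    rcases hj with hj | hj | ⟨j', _, hj⟩
    · exact Or.inl (Or.inl ⟨j, hj⟩)
    · exact Or.inl (Or.inr ⟨j, hj⟩)
    · exact Or.inr (hpos y j' x j hj).1.symm
  have h2 := Finset.card_le_card h1
  have h3 := Finset.card_union_le (tch pos P ∪ tch pos Q) {y}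
  have h4 := Finset.card_union_le (tch pos P) (tch pos Q)
  have h5 := tch_card hpos Q
  rw [Finset.card_singleton] at h3
  omega

/-- the next node is uniform -/
theorem pr_eq {pos : (Fin m → Bool) → Fin m → I}
    (hpos : ∀ x j x' j', pos x j = pos x' j' → x = x' ∧ j = j') (y x : Fin m → Bool) :
    Ex unif (fun π : I → Bool => if nxt pos π y = x then (1 : ℝ) else 0) = 1 / 2 ^ m := by
  classical
  have h1 : (fun π : I → Bool => if nxt pos π y = x then (1 : ℝ) else 0) =
      fun π => ∏ i, (if ∀ j, pos y j = i → π i = x j then (1 : ℝ) else 0) := by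
    funext π
    by_cases h : nxt pos π y = x
    · rw [if_pos h]
      symm
      refine Finset.prod_eq_one fun i _ => if_pos ?_
      intro j hj
      rw [← hj, ← h]
      rfl
    · rw [if_neg h]
      have h2 : ∃ j, nxt pos π y j ≠ x j := by
        by_contra h3
        push Not at h3
        exact h (funext h3)
      obtain ⟨j, hj⟩ := h2
      symm
      refine Finset.prod_eq_zero (Finset.mem_univ (pos y j)) (if_neg ?_)
      intro h3
      exact hj (h3 j rfl)
  rw [h1, Ex_fprod (fun i b => if ∀ j, pos y j = i → b = x j then (1 : ℝ) else 0)]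
  have h2 : ∀ i, ∑ a, unif a * (if ∀ j, pos y j = i → a = x j then (1 : ℝ) else 0) =
      if i ∈ univ.image (pos y) then 1 / 2 else 1 := by
    intro i
    by_cases h : i ∈ univ.image (pos y)
    · rw [if_pos h]
      obtain ⟨j, _, rfl⟩ := Finset.mem_image.1 h
      have h3 : ∀ a : Bool, (∀ j', pos y j' = pos y j → a = x j') ↔ a = x j := by
        intro a
        constructor
        · intro h4
          exact h4 j rfl
        · rintro h4 j' hj'
          rw [(hpos y j' y j hj').2]
          exact h4
      simp only [h3]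
      unfold unif
      cases x j <;> simp
    · rw [if_neg h]
      have h3 : ∀ a : Bool, (∀ j', pos y j' = i → a = x j') := by
        intro a j' hj'
        exact absurd (Finset.mem_image.2 ⟨j', mem_univ _, hj'⟩) h
      simp only [if_pos (h3 _), mul_one]
      exact unif_sum
  rw [Finset.prod_congr rfl fun i _ => h2 i, Finset.prod_ite_mem, Finset.univ_inter,
    Finset.prod_const, Finset.card_image_of_injective _ (fun j j' h => (hpos y j y j' h).2),
    Finset.card_univ, Fintype.card_fin]
  rw [one_div, inv_pow, one_div]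

theorem pr_mem {pos : (Fin m → Bool) → Fin m → I}
    (hpos : ∀ x j x' j', pos x j = pos x' j' → x = x' ∧ j = j') (y : Fin m → Bool)
    (X : Finset (Fin m → Bool)) :
    Ex unif (fun π : I → Bool => if nxt pos π y ∈ X then (1 : ℝ) else 0) = X.card / 2 ^ m := by
  have h1 : (fun π : I → Bool => if nxt pos π y ∈ X then (1 : ℝ) else 0) =
      fun π => ∑ x ∈ X, if nxt pos π y = x then (1 : ℝ) else 0 := by
    funext π
    rw [Finset.sum_ite_eq]
  rw [h1, Ex_sum]
  simp only [pr_eq hpos]
  rw [Finset.sum_const, nsmul_eq_mul]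
  ring

theorem iter_congr {pos : (Fin m → Bool) → Fin m → I} (A : I → Bool) (t : ℕ)
    (y : Fin m → Bool) : (nxt pos A)^[t + 1] y = (nxt pos A)^[t] (nxt pos A y) :=
  Function.iterate_succ_apply _ _ _

theorem gen {pos : (Fin m → Bool) → Fin m → I} (hm : 0 < m)
    (hpos : ∀ x j x' j', pos x j = pos x' j' → x = x' ∧ j = j') (q : ℕ) :
    ∀ (τ : ℕ) (P : Finset I) (ρ : I → Bool) (y : Fin m → Bool) (u r : ℕ)
      (g : (I → Bool) → Bool), (∀ j, pos y j ∉ P) → (tch pos P).card ≤ u → r ≤ τ → RQ q r g →
      Ex unif (fun a : I → Bool =>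
        if g a = ((nxt pos (ow P ρ a))^[τ + 1] y) ⟨0, hm⟩ then (1 : ℝ) else 0) ≤
        1 / 2 + (τ : ℝ) * (u + τ * (q + 1)) / 2 ^ m := by
  intro τ
  induction τ with
  | zero =>
    intro P ρ y u r g hy hu hr hg
    have hr0 : r = 0 := by omega
    subst hr0
    obtain ⟨c, hc⟩ := hg
    have h1 : (fun a : I → Bool =>
        if g a = ((nxt pos (ow P ρ a))^[0 + 1] y) ⟨0, hm⟩ then (1 : ℝ) else 0) =
        fun a => if c = a (pos y ⟨0, hm⟩) then (1 : ℝ) else 0 := by
      funext a
      rw [hc a]
      have h2 : ((nxt pos (ow P ρ a))^[0 + 1] y) ⟨0, hm⟩ = a (pos y ⟨0, hm⟩) := by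
        show ow P ρ a (pos y ⟨0, hm⟩) = a (pos y ⟨0, hm⟩)
        unfold ow
        rw [if_neg (hy _)]
      rw [h2]
    rw [h1, Ex_resample unif_sum _ (pos y ⟨0, hm⟩)]
    have h2 : (fun ω : I → Bool => ∑ a, unif a *
        (if c = Function.update ω (pos y ⟨0, hm⟩) a (pos y ⟨0, hm⟩) then (1 : ℝ) else 0)) =
        fun _ => 1 / 2 := by
      funext ω
      simp only [Function.update_self]
      unfold unif
      cases c <;> simp
    rw [h2, Ex_const unif_sum]
    simp
  | succ τ ih =>
    intro P ρ y u r g hy hu hr hg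
    obtain ⟨Q, hQ, r', hr', hQg⟩ : ∃ Q : Finset I, Q.card ≤ q ∧ ∃ r' ≤ τ,
        ∀ π : I → Bool, RQ q r' (fun a => g (ow Q π a)) := by
      cases r with
      | zero =>
        obtain ⟨c, hc⟩ := hg
        exact ⟨∅, by simp, 0, Nat.zero_le _, fun π => ⟨c, fun a => hc _⟩⟩
      | succ r =>
        obtain ⟨Q, hQ, h⟩ := hg
        exact ⟨Q, hQ, r, by omega, h⟩
    set Q' : Finset I := Q ∪ univ.image (pos y) with hQ'
    set X := tch pos (P ∪ Q') with hX
    have hXc : X.card ≤ u + q + 1 := by
      have := tch_step hpos P Q y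
      rw [← hQ', ← hX] at this
      omega
    rw [exow Q']
    set b : ℝ := 1 / 2 + (τ : ℝ) * (((u + q + 1 : ℕ) : ℝ) + τ * (q + 1)) / 2 ^ m with hb
    have hb0 : 0 ≤ b := by positivity
    have hπ : ∀ π : I → Bool, Ex unif (fun a : I → Bool =>
        if g (ow Q' π a) = ((nxt pos (ow P ρ (ow Q' π a)))^[τ + 1 + 1] y) ⟨0, hm⟩
          then (1 : ℝ) else 0) ≤ b + (if nxt pos π y ∈ X then (1 : ℝ) else 0) := by
      intro π
      by_cases hx : nxt pos π y ∈ X
      · rw [if_pos hx]
        have h1 : Ex unif (fun a : I → Bool =>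
            if g (ow Q' π a) = ((nxt pos (ow P ρ (ow Q' π a)))^[τ + 1 + 1] y) ⟨0, hm⟩
              then (1 : ℝ) else 0) ≤ Ex unif (fun _ : I → Bool => (1 : ℝ)) := by
          refine Ex_mono unif_nonneg fun a => ?_
          split_ifs <;> norm_num
        rw [Ex_const unif_sum] at h1
        linarith
      · rw [if_neg hx, add_zero]
        have h1 : ∀ a, ow P ρ (ow Q' π a) = ow (P ∪ Q') (ow P ρ π) a := by
          intro a
          funext l
          unfold ow
          by_cases h1 : l ∈ P
          · simp [h1]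
          · by_cases h2 : l ∈ Q' <;> simp [h1, h2]
        have h2 : ∀ a, nxt pos (ow (P ∪ Q') (ow P ρ π) a) y = nxt pos π y := by
          intro a
          funext j
          have h3 : pos y j ∈ Q' := by
            rw [hQ', Finset.mem_union]
            exact Or.inr (Finset.mem_image.2 ⟨j, mem_univ _, rfl⟩)
          show ow (P ∪ Q') (ow P ρ π) a (pos y j) = π (pos y j)
          unfold ow
          rw [if_pos (Finset.mem_union_right _ h3), if_neg (hy j)]
        have h4 : RQ q r' (fun a => g (ow Q' π a)) := by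
          have h5 := rq_ow (hQg π) Q' π
          have h6 : (fun a => g (ow Q π (ow Q' π a))) = fun a => g (ow Q' π a) := by
            funext a
            congr 1
            funext l
            unfold ow
            by_cases h7 : l ∈ Q
            · have h8 : l ∈ Q' := Finset.mem_union_left _ h7
              simp [h7, h8]
            · simp [h7]
          rwa [h6] at h5
        have h5 := ih (P ∪ Q') (ow P ρ π) (nxt pos π y) (u + q + 1) r'
          (fun a => g (ow Q' π a)) (fun j hj => hx (mem_tch.2 ⟨j, hj⟩)) hXc hr' h4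
        refine le_trans (le_of_eq ?_) h5
        congr 1
        funext a
        rw [h1 a, iter_congr _ (τ + 1), h2 a]
    refine (Ex_mono unif_nonneg hπ).trans ?_
    rw [Ex_add, Ex_const unif_sum, pr_mem hpos]
    have h9 : (X.card : ℝ) ≤ u + q + 1 := by exact_mod_cast hXc
    have h10 : (X.card : ℝ) / 2 ^ m ≤ (u + q + 1) / 2 ^ m :=
      div_le_div_of_nonneg_right h9 (by positivity)
    refine (add_le_add_right h10 b).trans ?_
    rw [hb, add_assoc, ← add_div]
    refine add_le_add_right ?_ _
    refine div_le_div_of_nonneg_right ?_ (by positivity)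
    push_cast
    have hq : (0 : ℝ) ≤ (q : ℝ) + 1 := by positivity
    have hτ : (0 : ℝ) ≤ (τ : ℝ) := Nat.cast_nonneg _
    nlinarith [mul_nonneg hτ hq]

end A

theorem exow_all : S_EXOW := by
  intro I _ _ Q F
  exact exow Q F

theorem block1 : S_BLOCK1 := by
  intro I _ _ m q r t hm pos g hpos hr hg
  obtain ⟨τ, rfl⟩ : ∃ τ, t = τ + 1 := ⟨t - 1, by omega⟩
  have h1 := gen hm hpos q τ ∅ (fun _ => false) (fun _ => false) 0 r g (by simp)
    (by
      have := tch_card hpos (∅ : Finset I)
      simpa using this) (by omega) hg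
  have h2 : ∀ a : I → Bool, ow ∅ (fun _ => false) a = a := by
    intro a
    funext l
    unfold ow
    simp
  simp only [h2] at h1
  refine h1.trans ?_
  refine add_le_add_right ?_ _
  refine div_le_div_of_nonneg_right ?_ (by positivity)
  push_cast
  have hq : (0 : ℝ) ≤ (q : ℝ) + 1 := by positivity
  have hτ : (0 : ℝ) ≤ (τ : ℝ) := Nat.cast_nonneg _
  nlinarith [mul_nonneg hτ hq]

end Pool.Agent.W346.ND
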